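import Mathlib

set_option autoImplicit false

open Set TopologicalSpace

namespace Pool.Agent.Y461.SOB

/-- A dcpo: every (nonempty) directed subset has a supremum. -/
def IsDcpo (P : Type*) [PartialOrder P] : Prop :=
  ∀ d : Set P, d.Nonempty → DirectedOn (· ≤ ·) d → ∃ a, IsLUB d a

/-- The Scott space of the poset `P` is sober: every irreducible closed set is the closure of
a point (`QuasiSober`) and this point is unique (`T0Space`). -/
def ScottSober (P : Type*) [PartialOrder P] : Prop :=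
  @QuasiSober P (Topology.scott P Set.univ) ∧ @T0Space P (Topology.scott P Set.univ)

/-- Scott open subsets. -/
def SOpen {P : Type*} [PartialOrder P] (U : Set P) : Prop :=
  IsUpperSet U ∧ DirSupInacc U

/-- The poset of Scott open subsets of `P`, ordered by inclusion. -/
def SO (P : Type*) [PartialOrder P] : Type _ := {W : Set P // SOpen W}

instance {P : Type*} [PartialOrder P] : PartialOrder (SO P) :=
  inferInstanceAs (PartialOrder {W : Set P // SOpen W})

theorem isOpen_iff {P : Type*} [PartialOrder P] (U : Set P) :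
    @IsOpen P (Topology.scott P Set.univ) U ↔ SOpen U := by
  let _ : TopologicalSpace P := Topology.scott P Set.univ
  have _ : Topology.IsScott P Set.univ := ⟨rfl⟩
  rw [Topology.IsScott.isOpen_iff_isUpperSet_and_dirSupInaccOn (D := Set.univ)]
  simp [SOpen]

theorem SOpen.iUnion {P : Type*} [PartialOrder P] {ι : Sort*} {W : ι → Set P}
    (h : ∀ i, SOpen (W i)) : SOpen (⋃ i, W i) :=
  ⟨isUpperSet_iUnion fun i => (h i).1, by
    have := DirSupInaccOn.iUnion (D := (Set.univ : Set (Set P))) (f := W)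
      (fun i => (h i).2.dirSupInaccOn)
    simpa using this⟩

theorem SOpen.inter {P : Type*} [PartialOrder P] {U V : Set P}
    (hU : SOpen U) (hV : SOpen V) : SOpen (U ∩ V) := by
  rw [← isOpen_iff] at *
  let _ : TopologicalSpace P := Topology.scott P Set.univ
  exact hU.inter hV

theorem SOpen.univ {P : Type*} [PartialOrder P] : SOpen (Set.univ : Set P) := by
  rw [← isOpen_iff]
  exact @isOpen_univ P (Topology.scott P Set.univ)

theorem SOpen.biInter {P : Type*} [PartialOrder P] {ι : Type*} (F : Finset ι) {W : ι → Set P}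
    (h : ∀ i ∈ F, SOpen (W i)) : SOpen (⋂ i ∈ F, W i) := by
  classical
  induction F using Finset.induction_on with
  | empty => simpa using SOpen.univ
  | insert a s ha ih =>
    rw [Finset.set_biInter_insert]
    exact (h a (Finset.mem_insert_self a s)).inter
      (ih fun i hi => h i (Finset.mem_insert_of_mem hi))

/-- Sobriety criterion: every irreducible Scott closed set is directed. -/
theorem scottSober_of {P : Type*} [PartialOrder P] (hd : IsDcpo P)
    (h : ∀ C : Set P, C.Nonempty → SOpen Cᶜ →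
      (∀ u v, SOpen u → SOpen v → (C ∩ u).Nonempty → (C ∩ v).Nonempty →
        (C ∩ (u ∩ v)).Nonempty) → DirectedOn (· ≤ ·) C) : ScottSober P := by
  let _ : TopologicalSpace P := Topology.scott P Set.univ
  have _ : Topology.IsScott P Set.univ := ⟨rfl⟩
  refine ⟨⟨?_⟩, inferInstance⟩
  intro C hC hcl
  have ho : SOpen Cᶜ := (isOpen_iff _).1 hcl.isOpen_compl
  have hdir := h C hC.1 ho (fun u v hu hv hcu hcv =>
    hC.2 u v ((isOpen_iff _).2 hu) ((isOpen_iff _).2 hv) hcu hcv)
  obtain ⟨a, ha⟩ := hd C hC.1 hdir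
  refine ⟨a, ?_⟩
  have haC : a ∈ C := by
    by_contra hna
    obtain ⟨x, hx1, hx2⟩ := ho.2 hC.1 hdir ha hna
    exact hx2 hx1
  have hcl' : closure {a} = Set.Iic a := Topology.IsScott.closure_singleton
  show closure {a} = C
  rw [hcl']
  apply subset_antisymm
  · intro x hx
    by_contra hxC
    exact ho.1 hx hxC haC
  · intro x hx
    exact ha.1 hx

/-- If an irreducible Scott closed set has no largest element the Scott space is not sober. -/
theorem not_scottSober_of {P : Type*} [PartialOrder P] (C : Set P) (hne : C.Nonempty)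
    (ho : SOpen Cᶜ)
    (hirr : ∀ u v, SOpen u → SOpen v → (C ∩ u).Nonempty → (C ∩ v).Nonempty →
        (C ∩ (u ∩ v)).Nonempty)
    (hmax : ∀ a ∈ C, ∃ b ∈ C, ¬ b ≤ a) : ¬ ScottSober P := by
  rintro ⟨hq, -⟩
  let _ : TopologicalSpace P := Topology.scott P Set.univ
  have _ : Topology.IsScott P Set.univ := ⟨rfl⟩
  have hcl : IsClosed C := by
    rw [← isOpen_compl_iff]
    exact (isOpen_iff _).2 ho
  have hir : IsIrreducible C := ⟨hne, fun u v hu hv hcu hcv =>
    hirr u v ((isOpen_iff _).1 hu) ((isOpen_iff _).1 hv) hcu hcv⟩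
  obtain ⟨a, ha⟩ := hq.sober hir hcl
  have hcl' : closure {a} = Set.Iic a := Topology.IsScott.closure_singleton
  have haC : C = Set.Iic a := by
    rw [← hcl']; exact ha.symm
  have h1 : a ∈ C := by rw [haC]; exact le_refl a
  obtain ⟨b, hb, hba⟩ := hmax a h1
  rw [haC] at hb
  exact hba hb

/-- Slices of Scott open sets of a product. -/
theorem SOpen.slice_left {P Q : Type*} [PartialOrder P] [PartialOrder Q] {A : Set (P × Q)}
    (hA : SOpen A) (q : Q) : SOpen {p : P | (p, q) ∈ A} := by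
  refine ⟨fun a b hab ha => hA.1 (show ((a, q) : P × Q) ≤ (b, q) from ⟨hab, le_refl q⟩) ha, ?_⟩
  intro d hd hdir a ha haA
  have h1 : DirectedOn (· ≤ ·) ((fun p : P => ((p, q) : P × Q)) '' d) := by
    rintro _ ⟨x, hx, rfl⟩ _ ⟨y, hy, rfl⟩
    obtain ⟨z, hz, hxz, hyz⟩ := hdir x hx y hy
    exact ⟨_, ⟨z, hz, rfl⟩, ⟨hxz, le_refl q⟩, ⟨hyz, le_refl q⟩⟩
  have h2 : IsLUB ((fun p : P => ((p, q) : P × Q)) '' d) (a, q) := by
    constructor
    · rintro _ ⟨x, hx, rfl⟩
      exact ⟨ha.1 hx, le_refl q⟩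
    · rintro ⟨b, c⟩ hb
      obtain ⟨x, hx⟩ := hd
      refine ⟨ha.2 fun y hy => ?_, ?_⟩
      · exact (hb ⟨y, hy, rfl⟩).1
      · exact (hb ⟨x, hx, rfl⟩).2
  obtain ⟨_, ⟨x, hx, rfl⟩, hxA⟩ := hA.2 (hd.image _) h1 h2 haA
  exact ⟨x, hx, hxA⟩

theorem SOpen.slice_right {P Q : Type*} [PartialOrder P] [PartialOrder Q] {A : Set (P × Q)}
    (hA : SOpen A) (p : P) : SOpen {q : Q | (p, q) ∈ A} := by
  refine ⟨fun a b hab ha => hA.1 (show ((p, a) : P × Q) ≤ (p, b) from ⟨le_refl p, hab⟩) ha, ?_⟩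
  intro d hd hdir a ha haA
  have h1 : DirectedOn (· ≤ ·) ((fun q : Q => ((p, q) : P × Q)) '' d) := by
    rintro _ ⟨x, hx, rfl⟩ _ ⟨y, hy, rfl⟩
    obtain ⟨z, hz, hxz, hyz⟩ := hdir x hx y hy
    exact ⟨_, ⟨z, hz, rfl⟩, ⟨le_refl p, hxz⟩, ⟨le_refl p, hyz⟩⟩
  have h2 : IsLUB ((fun q : Q => ((p, q) : P × Q)) '' d) (p, a) := by
    constructor
    · rintro _ ⟨x, hx, rfl⟩
      exact ⟨le_refl p, ha.1 hx⟩
    · rintro ⟨b, c⟩ hb
      obtain ⟨x, hx⟩ := hd
      refine ⟨?_, ha.2 fun y hy => ?_⟩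
      · exact (hb ⟨x, hx, rfl⟩).1
      · exact (hb ⟨y, hy, rfl⟩).2
  obtain ⟨_, ⟨x, hx, rfl⟩, hxA⟩ := hA.2 (hd.image _) h1 h2 haA
  exact ⟨x, hx, hxA⟩

/-- Suprema in `SO P` are unions. -/
theorem isLUB_SO {P : Type*} [PartialOrder P] (d : Set (SO P)) (W : SO P)
    (h : W.1 = ⋃ V ∈ d, V.1) : IsLUB d W := by
  constructor
  · intro V hV
    show V.1 ⊆ W.1
    rw [h]
    exact Set.subset_biUnion_of_mem (u := fun V : SO P => V.1) hV
  · intro V hV
    show W.1 ⊆ V.1
    rw [h]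
    exact Set.iUnion₂_subset fun U hU => hV hU

theorem SO_dcpo (P : Type*) [PartialOrder P] : IsDcpo (SO P) := by
  intro d _ _
  refine ⟨⟨⋃ V ∈ d, V.1, ?_⟩, isLUB_SO _ _ rfl⟩
  exact SOpen.iUnion fun V => SOpen.iUnion fun _ => V.2

theorem Opens_dcpo (X : Type*) [TopologicalSpace X] : IsDcpo (Opens X) :=
  fun d _ _ => ⟨sSup d, isLUB_sSup d⟩

end Pool.Agent.Y461.SOB
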