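import Mathlib
import Pool.Agent.Y461.SOB.Base

set_option autoImplicit false

open Set TopologicalSpace

namespace Pool.Agent.Y461.SOB

/-- Consonance: every Scott open family of open sets is a union of families
`{V | K ⊆ V}`, `K` compact. -/
def Consonant (X : Type*) [TopologicalSpace X] : Prop :=
  ∀ W : Set (Opens X), SOpen W → ∀ U ∈ W, ∃ K : Compacts X, (K : Set X) ⊆ U ∧
    ∀ V : Opens X, (K : Set X) ⊆ V → V ∈ W

section

variable {X : Type*} [TopologicalSpace X]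

theorem sopen_phi (K : Compacts X) : SOpen {U : Opens X | (K : Set X) ⊆ U} := by
  refine ⟨fun U V hUV hU => Set.Subset.trans (show (K : Set X) ⊆ U from hU) hUV, ?_⟩
  intro d hd hdir a ha haK
  have haS : a = sSup d := ha.unique (isLUB_sSup d)
  have h1 : (K : Set X) ⊆ ⋃ U : d, ((U : Opens X) : Set X) := by
    intro x hx
    have : x ∈ (a : Set X) := haK hx
    rw [haS] at this
    have h2 : x ∈ sSup d := this
    rw [Opens.mem_sSup] at h2
    obtain ⟨U, hU, hxU⟩ := h2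
    exact Set.mem_iUnion.2 ⟨⟨U, hU⟩, hxU⟩
  have _ : Nonempty d := hd.to_subtype
  obtain ⟨U, hU⟩ := K.isCompact.elim_directed_cover (fun U : d => ((U : Opens X) : Set X))
    (fun U => U.1.isOpen) h1 (by
      rintro ⟨U, hU⟩ ⟨V, hV⟩
      obtain ⟨Z, hZ, h1, h2⟩ := hdir U hU V hV
      exact ⟨⟨Z, hZ⟩, h1, h2⟩)
  exact ⟨U.1, U.2, hU⟩

/-- The Scott open family of all open sets containing one of the compact sets `k i`. -/
def phiF {ι : Type*} (k : ι → Compacts X) : SO (Opens X) :=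
  ⟨⋃ i, {U : Opens X | (k i : Set X) ⊆ U}, SOpen.iUnion fun i => sopen_phi (k i)⟩

theorem mem_phiF {ι : Type*} (k : ι → Compacts X) (U : Opens X) :
    U ∈ (phiF k).1 ↔ ∃ i, (k i : Set X) ⊆ U := by
  simp [phiF]

theorem phiF_le {ι : Type*} (k : ι → Compacts X) (W : SO (Opens X)) :
    phiF k ≤ W ↔ ∀ i, ∀ U : Opens X, (k i : Set X) ⊆ U → U ∈ W.1 := by
  constructor
  · intro h i U hU
    exact h ((mem_phiF k U).2 ⟨i, hU⟩)
  · intro h U hU
    obtain ⟨i, hi⟩ := (mem_phiF k U).1 hU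
    exact h i U hi

theorem phiF_mono {ι κ : Type*} (k : ι → Compacts X) (l : κ → Compacts X)
    (h : ∀ i, ∃ j, (l j : Set X) ⊆ k i) : phiF k ≤ phiF l := by
  rw [phiF_le]
  intro i U hU
  obtain ⟨j, hj⟩ := h i
  exact (mem_phiF l U).2 ⟨j, hj.trans hU⟩

/-- A family `phiF S` lying in a Scott open set is approximated by finite subfamilies. -/
theorem approx (S : Set (Compacts X)) (A : Set (SO (Opens X))) (hA : SOpen A)
    (h : phiF (fun K : S => (K : Compacts X)) ∈ A) :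
    ∃ F : Finset (Compacts X), (F : Set (Compacts X)) ⊆ S ∧
      phiF (fun K : F => (K : Compacts X)) ∈ A := by
  classical
  set d : Set (SO (Opens X)) := {W | ∃ F : Finset (Compacts X), (F : Set (Compacts X)) ⊆ S ∧
      W = phiF (fun K : F => (K : Compacts X))} with hd
  have hne : d.Nonempty := ⟨_, ∅, by simp, rfl⟩
  have hdir : DirectedOn (· ≤ ·) d := by
    rintro _ ⟨F, hF, rfl⟩ _ ⟨G, hG, rfl⟩
    refine ⟨_, ⟨F ∪ G, by simpa using ⟨hF, hG⟩, rfl⟩, ?_, ?_⟩
    · refine phiF_mono _ _ fun i => ⟨⟨i.1, Finset.mem_union_left _ i.2⟩, subset_rfl⟩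
    · refine phiF_mono _ _ fun i => ⟨⟨i.1, Finset.mem_union_right _ i.2⟩, subset_rfl⟩
  have hlub : IsLUB d (phiF (fun K : S => (K : Compacts X))) := by
    apply isLUB_SO
    ext U
    simp only [Set.mem_iUnion]
    constructor
    · intro hU
      obtain ⟨⟨K, hK⟩, hKU⟩ := (mem_phiF _ _).1 hU
      exact ⟨_, ⟨{K}, by simpa using hK, rfl⟩,
        (mem_phiF _ _).2 ⟨⟨K, Finset.mem_singleton_self K⟩, hKU⟩⟩
    · rintro ⟨_, ⟨F, hF, rfl⟩, hU⟩
      obtain ⟨⟨K, hK⟩, hKU⟩ := (mem_phiF _ _).1 hU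
      exact (mem_phiF _ _).2 ⟨⟨K, hF hK⟩, hKU⟩
  obtain ⟨_, ⟨F, hF, rfl⟩, hFA⟩ := hA.2 hne hdir hlub h
  exact ⟨F, hF, hFA⟩

/-- Tails of a sequence of compact sets converging to a compact set. -/
theorem isCompact_tail (K : Set X) (hK : IsCompact K) (L : ℕ → Set X)
    (hL : ∀ m, IsCompact (L m))
    (hlim : ∀ U : Set X, IsOpen U → K ⊆ U → ∃ N, ∀ m ≥ N, L m ⊆ U) (n : ℕ) :
    IsCompact (K ∪ ⋃ m ≥ n, L m) := by
  classical
  rw [isCompact_iff_finite_subcover]
  intro ι U hU hcov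
  obtain ⟨t, ht⟩ := hK.elim_finite_subcover U hU (subset_union_left.trans hcov)
  obtain ⟨N, hN⟩ := hlim (⋃ i ∈ t, U i) (isOpen_biUnion fun i _ => hU i) ht
  have hc2 : IsCompact (⋃ m ∈ Finset.Ico n N, L m) :=
    (Finset.Ico n N).isCompact_biUnion fun m _ => hL m
  obtain ⟨t', ht'⟩ := hc2.elim_finite_subcover U hU (by
    refine Subset.trans ?_ hcov
    refine iUnion₂_subset fun m hm => ?_
    refine Subset.trans ?_ subset_union_right
    have hm' : m ≥ n := (Finset.mem_Ico.1 hm).1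
    exact Set.subset_biUnion_of_mem (u := fun m => L m) hm')
  refine ⟨t ∪ t', ?_⟩
  rw [Finset.set_biUnion_union]
  apply union_subset
  · exact ht.trans subset_union_left
  · refine iUnion₂_subset fun m hm => ?_
    by_cases hmN : N ≤ m
    · exact (hN m hmN).trans subset_union_left
    · refine Subset.trans ?_ (ht'.trans subset_union_right)
      have : m ∈ Finset.Ico n N := Finset.mem_Ico.2 ⟨hm, not_le.1 hmN⟩
      exact Set.subset_biUnion_of_mem (u := fun m => L m) this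

/-- Shrinking lemma. -/
theorem shrink {ι : Type*} (k : ι → Compacts X) (L : ℕ → ι → Compacts X)
    (hlim : ∀ i, ∀ U : Set X, IsOpen U → (k i : Set X) ⊆ U → ∃ N, ∀ m ≥ N, (L m i : Set X) ⊆ U)
    (A : Set (SO (Opens X))) (hA : SOpen A) (h : phiF k ∈ A) :
    ∃ (T : ι → Compacts X) (n : ℕ), phiF T ∈ A ∧ ∀ m ≥ n, ∀ i, (L m i : Set X) ⊆ T i := by
  classical
  set T : ℕ → ι → Compacts X := fun n i =>
    ⟨(k i : Set X) ∪ ⋃ m ≥ n, (L m i : Set X),
      isCompact_tail _ (k i).isCompact _ (fun m => (L m i).isCompact) (hlim i) n⟩ with hT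
  have hTc : ∀ n i, (T n i : Set X) = (k i : Set X) ∪ ⋃ m ≥ n, (L m i : Set X) := fun _ _ => rfl
  set d : Set (SO (Opens X)) := Set.range fun n => phiF (T n) with hd
  have hne : d.Nonempty := ⟨_, 0, rfl⟩
  have hmono : ∀ a b : ℕ, a ≤ b → phiF (T a) ≤ phiF (T b) := by
    intro a b hab
    refine phiF_mono _ _ fun i => ⟨i, ?_⟩
    rw [hTc, hTc]
    apply union_subset subset_union_left
    refine iUnion₂_subset fun m hm => ?_
    refine Subset.trans ?_ subset_union_right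
    exact Set.subset_biUnion_of_mem (u := fun m => (L m i : Set X)) (show m ≥ a from le_trans hab hm)
  have hdir : DirectedOn (· ≤ ·) d := by
    rintro _ ⟨a, rfl⟩ _ ⟨b, rfl⟩
    exact ⟨_, ⟨max a b, rfl⟩, hmono _ _ (le_max_left a b), hmono _ _ (le_max_right a b)⟩
  have hlub : IsLUB d (phiF k) := by
    apply isLUB_SO
    ext U
    simp only [Set.mem_iUnion]
    constructor
    · intro hU
      obtain ⟨i, hi⟩ := (mem_phiF _ _).1 hU
      obtain ⟨N, hN⟩ := hlim i U U.isOpen hi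
      refine ⟨_, ⟨N, rfl⟩, (mem_phiF _ _).2 ⟨i, ?_⟩⟩
      rw [hTc]
      exact union_subset hi (iUnion₂_subset fun m hm => hN m hm)
    · rintro ⟨_, ⟨n, rfl⟩, hU⟩
      obtain ⟨i, hi⟩ := (mem_phiF _ _).1 hU
      refine (mem_phiF _ _).2 ⟨i, ?_⟩
      rw [hTc] at hi
      exact subset_union_left.trans hi
  obtain ⟨_, ⟨n, rfl⟩, hn⟩ := hA.2 hne hdir hlub h
  refine ⟨T n, n, hn, fun m hm i => ?_⟩
  rw [hTc]
  refine Subset.trans ?_ subset_union_right
  exact Set.subset_biUnion_of_mem (u := fun m => (L m i : Set X)) hm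

end

end Pool.Agent.Y461.SOB
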