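import Mathlib
import Pool.Agent.Y461.SOB.Phi

set_option autoImplicit false

open Set TopologicalSpace

namespace Pool.Agent.Y461.SOB

section

variable {X : Type*}

/-- Open thickenings of a compact set in a metric space, as a sequence. -/
theorem exists_nbhd_seq [MetricSpace X] (K : Set X) (hK : IsCompact K) :
    ∀ U : Set X, IsOpen U → K ⊆ U →
      ∃ N : ℕ, ∀ m ≥ N, Metric.thickening (1 / ((m : ℝ) + 1)) K ⊆ U := by
  intro U hU hKU
  obtain ⟨δ, hδ, h⟩ := hK.exists_thickening_subset_open hU hKU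
  obtain ⟨N, hN⟩ := exists_nat_one_div_lt hδ
  refine ⟨N, fun m hm => Subset.trans (Metric.thickening_mono ?_ K) h⟩
  refine le_trans ?_ hN.le
  apply one_div_le_one_div_of_le (by positivity)
  have : (N : ℝ) ≤ m := by exact_mod_cast hm
  linarith

/-- Every neighbourhood of `phiF k` contains a basic neighbourhood. -/
theorem basic_nbhd [MetricSpace X] {ι : Type*} (k : ι → Compacts X)
    (A : Set (SO (Opens X))) (hA : SOpen A) (h : phiF k ∈ A) :
    ∃ V : ι → Opens X, (∀ i, (k i : Set X) ⊆ V i) ∧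
      ∀ L : ι → Compacts X, (∀ i, (L i : Set X) ⊆ V i) → phiF L ∈ A := by
  by_contra hcon
  push Not at hcon
  have hV : ∀ n : ℕ, ∃ L : ι → Compacts X,
      (∀ i, (L i : Set X) ⊆ Metric.thickening (1 / ((n : ℝ) + 1)) (k i : Set X)) ∧
        phiF L ∉ A := by
    intro n
    exact hcon (fun i => ⟨Metric.thickening (1 / ((n : ℝ) + 1)) (k i : Set X),
      Metric.isOpen_thickening⟩)
      (fun i => Metric.self_subset_thickening (by positivity) _)
  choose L hL1 hL2 using hV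
  obtain ⟨T, n, hT, hTn⟩ := shrink k L (fun i U hU hkU => by
    obtain ⟨N, hN⟩ := exists_nbhd_seq (k i : Set X) (k i).isCompact U hU hkU
    exact ⟨N, fun m hm => (hL1 m i).trans (hN m hm)⟩) A hA h
  exact hL2 n (hA.1 (phiF_mono _ _ fun i => ⟨i, hTn n le_rfl i⟩) hT)

/-- The lattice of open sets of a consonant Hausdorff space is Scott sober. -/
theorem opens_sober [TopologicalSpace X] [T2Space X] (hX : Consonant X) :
    ScottSober (Opens X) := by
  apply scottSober_of (Opens_dcpo X)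
  intro C _ ho hirr a ha b hb
  refine ⟨a ⊔ b, ?_, le_sup_left, le_sup_right⟩
  by_contra hab
  obtain ⟨K, hK, hKV⟩ := hX _ ho (a ⊔ b) hab
  obtain ⟨K₁, K₂, h1, h2, h1a, h2b, hKe⟩ :=
    K.isCompact.binary_compact_cover a.isOpen b.isOpen (by simpa using hK)
  obtain ⟨U, hUC, hU1, hU2⟩ := hirr _ _ (sopen_phi ⟨K₁, h1⟩) (sopen_phi ⟨K₂, h2⟩)
    ⟨a, ha, h1a⟩ ⟨b, hb, h2b⟩
  refine hKV U ?_ hUC
  rw [hKe]
  exact union_subset hU1 hU2

/-- The lattice of Scott open families of open sets of a consonant metric space is Scott sober. -/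
theorem SO_sober [MetricSpace X] (hX : Consonant X) : ScottSober (SO (Opens X)) := by
  classical
  apply scottSober_of (SO_dcpo _)
  intro C _ ho hirr W₁ hW₁ W₂ hW₂
  set S : Set (Compacts X) := {K | (∀ U : Opens X, (K : Set X) ⊆ U → U ∈ W₁.1) ∨
    (∀ U : Opens X, (K : Set X) ⊆ U → U ∈ W₂.1)} with hS
  refine ⟨phiF (fun K : S => (K : Compacts X)), ?_, ?_, ?_⟩
  · by_contra hnot
    obtain ⟨F, hFS, hF⟩ := approx S _ ho hnot
    obtain ⟨V, hV1, hV2⟩ := basic_nbhd (fun K : F => (K : Compacts X)) _ ho hF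
    set G : Opens X → Set (SO (Opens X)) := fun U => {W | U ∈ W.1} with hG
    have hGo : ∀ U, SOpen (G U) := by
      intro U
      refine ⟨fun A B hAB hA => hAB hA, ?_⟩
      intro d hd hdir a ha haU
      have hlub := isLUB_SO d ⟨⋃ V ∈ d, V.1, SOpen.iUnion fun V => SOpen.iUnion fun _ => V.2⟩ rfl
      have hae := ha.unique hlub
      rw [hae] at haU
      have : U ∈ ⋃ V ∈ d, V.1 := haU
      simp only [Set.mem_iUnion] at this
      obtain ⟨W, hW, hUW⟩ := this
      exact ⟨W, hW, hUW⟩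
    set F₁ : Finset F := Finset.univ.filter fun K : F =>
      ∀ U : Opens X, ((K : Compacts X) : Set X) ⊆ U → U ∈ W₁.1 with hF₁
    set F₂ : Finset F := Finset.univ.filter fun K : F =>
      ∀ U : Opens X, ((K : Compacts X) : Set X) ⊆ U → U ∈ W₂.1 with hF₂
    obtain ⟨W, hWC, hWA, hWB⟩ := hirr (⋂ K ∈ F₁, G (V K)) (⋂ K ∈ F₂, G (V K))
      (SOpen.biInter F₁ fun K _ => hGo _) (SOpen.biInter F₂ fun K _ => hGo _)
      ⟨W₁, hW₁, by
        simp only [Set.mem_iInter]
        intro K hK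
        exact (Finset.mem_filter.1 hK).2 _ (hV1 K)⟩
      ⟨W₂, hW₂, by
        simp only [Set.mem_iInter]
        intro K hK
        exact (Finset.mem_filter.1 hK).2 _ (hV1 K)⟩
    have hVW : ∀ K : F, V K ∈ W.1 := by
      intro K
      rcases hFS K.2 with h | h
      · have hK : K ∈ F₁ := Finset.mem_filter.2 ⟨Finset.mem_univ _, h⟩
        simp only [Set.mem_iInter] at hWA
        exact hWA K hK
      · have hK : K ∈ F₂ := Finset.mem_filter.2 ⟨Finset.mem_univ _, h⟩
        simp only [Set.mem_iInter] at hWB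
        exact hWB K hK
    have hL : ∀ K : F, ∃ L : Compacts X, (L : Set X) ⊆ V K ∧
        ∀ U : Opens X, (L : Set X) ⊆ U → U ∈ W.1 := fun K => hX W.1 W.2 (V K) (hVW K)
    choose L hL1 hL2 using hL
    exact ho.1 ((phiF_le L W).2 hL2) (hV2 L hL1) hWC
  · intro U hU
    obtain ⟨K, hKU, hK⟩ := hX W₁.1 W₁.2 U hU
    exact (mem_phiF _ _).2 ⟨⟨K, Or.inl hK⟩, hKU⟩
  · intro U hU
    obtain ⟨K, hKU, hK⟩ := hX W₂.1 W₂.2 U hU
    exact (mem_phiF _ _).2 ⟨⟨K, Or.inr hK⟩, hKU⟩

end

end Pool.Agent.Y461.SOB
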