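import Mathlib
import Pool.Agent.Y461.SOB.Sober

set_option autoImplicit false

open Set TopologicalSpace Filter Topology

namespace Pool.Agent.Y461.SOB

section

variable {X : Type*} [MetricSpace X]

/-- a point as a compact set -/
def pt (x : X) : Compacts X := ⟨{x}, isCompact_singleton⟩

/-- the complement of a finite set as an open set -/
def co (F : Set X) (hF : F.Finite) : Opens X := ⟨Fᶜ, hF.isClosed.isOpen_compl⟩

theorem mem_phi_pt {ι : Type*} (k : ι → X) (U : Opens X) :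
    U ∈ (phiF fun i => pt (k i)).1 ↔ ∃ i, k i ∈ U := by
  rw [mem_phiF]
  constructor
  · rintro ⟨i, hi⟩
    exact ⟨i, hi (Set.mem_singleton (k i))⟩
  · rintro ⟨i, hi⟩
    refine ⟨i, ?_⟩
    rintro x hx
    have : x = k i := hx
    rw [this]; exact hi

/-- Start: a Scott open set meeting `C = {(W,U) : U ∉ W}` contains a point of the form
`(⋄ k, X ∖ k)` with `k` finite. -/
theorem start (hX : Consonant X) (A : Set (SO (Opens X) × Opens X)) (hA : SOpen A)
    (W : SO (Opens X)) (U : Opens X) (hWU : (W, U) ∈ A) (hUW : U ∉ W.1) :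
    ∃ (n : ℕ) (k : Fin n → X),
      (phiF (fun i => pt (k i)), co (Set.range k) (Set.finite_range k)) ∈ A := by
  classical
  set S : Set (Compacts X) := {K | ∀ V : Opens X, (K : Set X) ⊆ V → V ∈ W.1} with hS
  have h1 : phiF (fun K : S => (K : Compacts X)) ∈ {p : SO (Opens X) | (p, U) ∈ A} := by
    have hle : W ≤ phiF (fun K : S => (K : Compacts X)) := by
      intro V hV
      obtain ⟨K, hKV, hK⟩ := hX W.1 W.2 V hV
      exact (mem_phiF _ _).2 ⟨⟨K, hK⟩, hKV⟩
    exact (hA.slice_left U).1 hle hWU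
  obtain ⟨F, hFS, hF⟩ := approx S _ (hA.slice_left U) h1
  have hex : ∀ K : F, ∃ x ∈ (K : Compacts X), x ∉ U := by
    intro K
    by_contra hcon
    push Not at hcon
    exact hUW (hFS K.2 U hcon)
  choose x hx1 hx2 using hex
  let e : Fin (Fintype.card F) ≃ F := (Fintype.equivFin F).symm
  refine ⟨Fintype.card F, fun i => x (e i), ?_⟩
  refine hA.1 (show ((phiF (fun K : F => (K : Compacts X)), U) : SO (Opens X) × Opens X) ≤ _ from
    ⟨?_, ?_⟩) hF
  · refine phiF_mono _ _ fun K => ⟨e.symm K, ?_⟩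
    intro y hy
    have : y = x (e (e.symm K)) := hy
    rw [this, Equiv.apply_symm_apply]
    exact hx1 K
  · intro y hy
    show y ∈ (Set.range fun i => x (e i))ᶜ
    rintro ⟨i, rfl⟩
    exact hx2 _ hy

/-- Openness of the set of tuples `k` with `(⋄ k, X ∖ (k ∪ E)) ∈ A`. -/
theorem isOpen_tuples (hX : Consonant X) (A : Set (SO (Opens X) × Opens X)) (hA : SOpen A)
    (E : Set X) (hE : E.Finite) (n : ℕ) :
    IsOpen {k : Fin n → X | (phiF (fun i => pt (k i)),
      co (Set.range k ∪ E) ((Set.finite_range k).union hE)) ∈ A} := by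
  rw [← isClosed_compl_iff]
  apply IsSeqClosed.isClosed
  intro u k hu hlim hk
  have hk' : (phiF (fun i => pt (k i)),
      co (Set.range k ∪ E) ((Set.finite_range k).union hE)) ∈ A := hk
  have hlim' : ∀ i, Tendsto (fun m => u m i) atTop (𝓝 (k i)) :=
    fun i => (tendsto_pi_nhds.1 hlim) i
  obtain ⟨T, N, hT, hTN⟩ := shrink (fun i => pt (k i)) (fun m i => pt (u m i))
    (fun i U hU hkU => by
      have hkU' : k i ∈ U := hkU (Set.mem_singleton (k i))
      have := (hlim' i).eventually (hU.mem_nhds hkU')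
      obtain ⟨M, hM⟩ := eventually_atTop.1 this
      refine ⟨M, fun m hm => ?_⟩
      intro y hy
      have : y = u m i := hy
      rw [this]
      exact hM m hm) _ (hA.slice_left _) hk'
  obtain ⟨L, hL1, hL2⟩ := hX _ (hA.slice_right (phiF T)) _ hT
  have hLcl : IsOpen (L : Set X)ᶜ := L.isCompact.isClosed.isOpen_compl
  have hev : ∀ᶠ m in atTop, ∀ i, u m i ∈ (L : Set X)ᶜ := by
    rw [eventually_all]
    intro i
    apply (hlim' i).eventually (hLcl.mem_nhds _)
    intro hki
    exact (hL1 hki) (Or.inl ⟨i, rfl⟩)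
  obtain ⟨M, hM⟩ := eventually_atTop.1 hev
  set m := max M N with hm
  have h1 : (phiF T, co (Set.range (u m) ∪ E) ((Set.finite_range (u m)).union hE)) ∈ A := by
    apply hL2
    intro y hy
    show y ∈ (Set.range (u m) ∪ E)ᶜ
    rintro (⟨i, rfl⟩ | hyE)
    · exact hM m (le_max_left _ _) i hy
    · exact (hL1 hy) (Or.inr hyE)
  refine hu m (hA.1 (show ((phiF T, _) : SO (Opens X) × Opens X) ≤ _ from ⟨?_, le_rfl⟩) h1)
  exact phiF_mono _ _ fun i => ⟨i, hTN m (le_max_right _ _) i⟩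

/-- The product is not Scott sober. -/
theorem product_not_sober [Nonempty X] (hX : Consonant X)
    (hint : ∀ K : Set X, IsCompact K → interior K = ∅) :
    ¬ ScottSober (SO (Opens X) × Opens X) := by
  classical
  set C : Set (SO (Opens X) × Opens X) := {p | p.2 ∉ p.1.1} with hC
  have ho : SOpen Cᶜ := by
    constructor
    · rintro ⟨W, U⟩ ⟨W', U'⟩ ⟨h1, h2⟩ h3
      have h3' : U ∈ W.1 := not_not.1 h3
      exact not_not.2 (W'.2.1 h2 (h1 h3'))
    · intro d hd hdir a ha haC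
      have haC' : a.2 ∈ a.1.1 := not_not.1 haC
      -- the supremum is computed coordinatewise
      set W : SO (Opens X) := ⟨⋃ V ∈ Prod.fst '' d, V.1,
        SOpen.iUnion fun V => SOpen.iUnion fun _ => V.2⟩ with hW
      have hWl : IsLUB (Prod.fst '' d) W := isLUB_SO _ _ rfl
      have hUl : IsLUB (Prod.snd '' d) (sSup (Prod.snd '' d)) := isLUB_sSup _
      have hl : IsLUB d (W, sSup (Prod.snd '' d)) := isLUB_prod.2 ⟨hWl, hUl⟩
      have hae := ha.unique hl
      rw [hae] at haC'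
      have h4 : sSup (Prod.snd '' d) ∈ ⋃ V ∈ Prod.fst '' d, V.1 := haC'
      simp only [Set.mem_iUnion] at h4
      obtain ⟨V, ⟨p, hp, rfl⟩, hV⟩ := h4
      have hdir2 : DirectedOn (· ≤ ·) (Prod.snd '' d) := by
        rintro _ ⟨x, hx, rfl⟩ _ ⟨y, hy, rfl⟩
        obtain ⟨z, hz, hxz, hyz⟩ := hdir x hx y hy
        exact ⟨_, ⟨z, hz, rfl⟩, hxz.2, hyz.2⟩
      obtain ⟨_, ⟨r, hr, rfl⟩, hr2⟩ := p.1.2.2 (hd.image _) hdir2 hUl hV
      obtain ⟨z, hz, hpz, hrz⟩ := hdir p hp r hr
      refine ⟨z, hz, not_not.2 ?_⟩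
      exact z.1.2.1 hrz.2 (hpz.1 hr2)
  have hbot : (((⟨∅, by
      refine ⟨fun _ _ _ h => h, fun d hd _ a _ ha => ha.elim⟩⟩ : SO (Opens X)), (⊤ : Opens X)) :
        SO (Opens X) × Opens X) ∈ C := by
    intro h
    exact h
  refine not_scottSober_of C ⟨_, hbot⟩ ho ?_ ?_
  · rintro A B hA hB ⟨⟨W₁, U₁⟩, hC₁, hA₁⟩ ⟨⟨W₂, U₂⟩, hC₂, hB₂⟩
    obtain ⟨a, k₀, hk₀⟩ := start hX A hA W₁ U₁ hA₁ hC₁
    obtain ⟨b, l₀, hl₀⟩ := start hX B hB W₂ U₂ hB₂ hC₂
    -- a compact set for `A` at `k₀`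
    obtain ⟨L, hL1, hL2⟩ := hX _ (hA.slice_right (phiF fun i => pt (k₀ i))) _ hk₀
    -- move `l₀` off `L`
    have hopenB := isOpen_tuples hX B hB ∅ Set.finite_empty b
    have hl₀' : l₀ ∈ {k : Fin b → X | (phiF (fun i => pt (k i)),
        co (Set.range k ∪ ∅) ((Set.finite_range k).union Set.finite_empty)) ∈ B} := by
      have hle : ((phiF (fun i => pt (l₀ i)), co (Set.range l₀) (Set.finite_range l₀)) :
          SO (Opens X) × Opens X) ≤ (phiF (fun i => pt (l₀ i)),
            co (Set.range l₀ ∪ ∅) ((Set.finite_range l₀).union Set.finite_empty)) := by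
        refine ⟨le_rfl, ?_⟩
        intro y hy
        show y ∈ (Set.range l₀ ∪ ∅)ᶜ
        rw [Set.union_empty]; exact hy
      exact hB.1 hle hl₀
    have hdense : ∀ (n : ℕ) (K : Set X), IsCompact K →
        ∀ (O : Set (Fin n → X)), IsOpen O → ∀ k ∈ O, ∃ k' ∈ O, ∀ i, k' i ∉ K := by
      intro n K hK O hO k hk
      have hd : Dense Kᶜ := by
        rw [← interior_eq_empty_iff_dense_compl]; exact hint K hK
      have hd2 : Dense {k' : Fin n → X | ∀ i, k' i ∈ Kᶜ} := by
        have := dense_pi (Set.univ : Set (Fin n)) (s := fun _ => Kᶜ) (fun _ _ => hd)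
        convert this using 1
        ext k'
        simp
      obtain ⟨k', hk'O, hk'⟩ := hd2.inter_open_nonempty O hO ⟨k, hk⟩
      exact ⟨k', hk'O, hk'⟩
    obtain ⟨l, hlB, hlL⟩ := hdense b L L.isCompact _ hopenB l₀ hl₀'
    have hkl : k₀ ∈ {k : Fin a → X | (phiF (fun i => pt (k i)),
        co (Set.range k ∪ Set.range l) ((Set.finite_range k).union (Set.finite_range l))) ∈ A} := by
      apply hL2
      intro y hy
      show y ∈ (Set.range k₀ ∪ Set.range l)ᶜ
      rintro (hyk | ⟨j, rfl⟩)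
      · exact (hL1 hy) hyk
      · exact hlL j hy
    have hopenA := isOpen_tuples hX A hA (Set.range l) (Set.finite_range l) a
    obtain ⟨M, hM1, hM2⟩ := hX _ (hB.slice_right (phiF fun i => pt (l i))) _ hlB
    obtain ⟨k, hkA, hkM⟩ := hdense a M M.isCompact _ hopenA k₀ hkl
    set U : Opens X := co (Set.range k ∪ Set.range l)
      ((Set.finite_range k).union (Set.finite_range l)) with hU
    have hB' : (phiF (fun i => pt (l i)), U) ∈ B := by
      apply hM2
      intro y hy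
      show y ∈ (Set.range k ∪ Set.range l)ᶜ
      rintro (⟨i, rfl⟩ | hyl)
      · exact hkM i hy
      · exact (hM1 hy) (Or.inl hyl)
    have hA' : (phiF (fun i => pt (k i)), U) ∈ A := hkA
    set W : SO (Opens X) := phiF (fun i : Fin a ⊕ Fin b => pt (Sum.elim k l i)) with hW
    refine ⟨(W, U), ?_, ?_, ?_⟩
    · intro h
      have h' : U ∈ W.1 := h
      rw [hW, mem_phi_pt] at h'
      obtain ⟨i, hi⟩ := h'
      have hi' : Sum.elim k l i ∈ (Set.range k ∪ Set.range l)ᶜ := hi
      apply hi'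
      rcases i with i | j
      · exact Or.inl ⟨i, rfl⟩
      · exact Or.inr ⟨j, rfl⟩
    · have hle : ((phiF (fun i => pt (k i)), U) : SO (Opens X) × Opens X) ≤ (W, U) :=
        ⟨phiF_mono _ _ fun i => ⟨Sum.inl i, subset_rfl⟩, le_rfl⟩
      exact hA.1 hle hA'
    · have hle : ((phiF (fun i => pt (l i)), U) : SO (Opens X) × Opens X) ≤ (W, U) :=
        ⟨phiF_mono _ _ fun i => ⟨Sum.inr i, subset_rfl⟩, le_rfl⟩
      exact hB.1 hle hB'
  · rintro ⟨W, U⟩ hWU
    by_contra hcon
    push Not at hcon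
    obtain ⟨x⟩ := ‹Nonempty X›
    have h1 := (hcon _ hbot).2
    have hUt : U = ⊤ := top_le_iff.1 h1
    have h2 : ((phiF (fun _ : Unit => pt x), (⊥ : Opens X)) : SO (Opens X) × Opens X) ∈ C := by
      intro h
      have h' : (⊥ : Opens X) ∈ (phiF (fun _ : Unit => pt x)).1 := h
      rw [mem_phi_pt] at h'
      obtain ⟨_, hx⟩ := h'
      exact hx
    have h3 := (hcon _ h2).1
    apply hWU
    apply h3
    rw [mem_phi_pt]
    exact ⟨(), by rw [hUt]; trivial⟩

end

end Pool.Agent.Y461.SOB
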