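import Mathlib
import Pool.Agent.Y461.SOB.Product

set_option autoImplicit false

open Set TopologicalSpace Filter Topology

namespace Pool.Agent.Y461.SOB

/-- Increasing unions in Scott open families of open sets. -/
theorem exists_mem_of_union {X : Type*} [TopologicalSpace X] (W : Set (Opens X)) (hW : SOpen W)
    (U : Opens X) (hU : U ∈ W) (E : ℕ → Opens X) (hmono : Monotone E)
    (hE : ∀ x ∈ U, ∃ n, x ∈ E n) : ∃ n, E n ∈ W := by
  have hdir : DirectedOn (· ≤ ·) (Set.range E) := by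
    rintro _ ⟨a, rfl⟩ _ ⟨b, rfl⟩
    exact ⟨_, ⟨max a b, rfl⟩, hmono (le_max_left a b), hmono (le_max_right a b)⟩
  have hsup : sSup (Set.range E) ∈ W := by
    refine hW.1 ?_ hU
    intro x hx
    obtain ⟨n, hn⟩ := hE x hx
    have : E n ≤ sSup (Set.range E) := le_sSup ⟨n, rfl⟩
    exact this hn
  obtain ⟨_, ⟨n, rfl⟩, hn⟩ := hW.2 (Set.range_nonempty E) hdir (isLUB_sSup _) hsup
  exact ⟨n, hn⟩

theorem exists_cyl (U : Set (ℕ → ℕ)) (hU : IsOpen U) (x : ℕ → ℕ) (hx : x ∈ U) :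
    ∃ n, ∀ y : ℕ → ℕ, (∀ i < n, y i = x i) → y ∈ U := by
  obtain ⟨s, ⟨z, n, rfl⟩, hxs, hsU⟩ :=
    (PiNat.isTopologicalBasis_cylinders (E := fun _ => ℕ)).exists_subset_of_mem_open hx hU
  refine ⟨n, fun y hy => hsU ?_⟩
  intro i hi
  rw [hy i hi]
  exact hxs i hi

theorem isOpen_of_cyl (U : Set (ℕ → ℕ))
    (h : ∀ x ∈ U, ∃ n, ∀ y : ℕ → ℕ, (∀ i < n, y i = x i) → y ∈ U) : IsOpen U := by
  rw [isOpen_iff_mem_nhds]
  intro x hx
  obtain ⟨n, hn⟩ := h x hx
  have ho : IsOpen {y : ℕ → ℕ | ∀ i < n, y i = x i} := by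
    have : {y : ℕ → ℕ | ∀ i < n, y i = x i} = ⋂ i ∈ Finset.range n, {y : ℕ → ℕ | y i = x i} := by
      ext y; simp
    rw [this]
    apply isOpen_biInter_finset
    intro i _
    have hc : Continuous fun y : ℕ → ℕ => y i := continuous_apply i
    exact (isOpen_discrete ({x i} : Set ℕ)).preimage hc
  exact mem_of_superset (ho.mem_nhds (fun i _ => rfl)) hn

theorem consonant_baire : Consonant (ℕ → ℕ) := by
  intro W hW U hU
  -- replace `U` by a clopen set
  set E : ℕ → Opens (ℕ → ℕ) := fun m =>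
    ⟨{x | ∀ y : ℕ → ℕ, (∀ i < m, y i = x i) → y ∈ U}, by
      apply isOpen_of_cyl
      intro x hx
      refine ⟨m, fun y hy z hz => hx z fun i hi => ?_⟩
      rw [hz i hi, hy i hi]⟩ with hE
  have hEm : ∀ m x, x ∈ E m ↔ ∀ y : ℕ → ℕ, (∀ i < m, y i = x i) → y ∈ U := fun _ _ => Iff.rfl
  have hEmono : Monotone E := by
    intro a b hab x hx
    rw [hEm] at *
    exact fun y hy => hx y fun i hi => hy i (lt_of_lt_of_le hi hab)
  obtain ⟨m, hm⟩ := exists_mem_of_union W hW U hU E hEmono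
    (fun x hx => exists_cyl U U.isOpen x hx)
  have hEcl : IsClosed (E m : Set (ℕ → ℕ)) := by
    rw [← isOpen_compl_iff]
    apply isOpen_of_cyl
    intro x hx
    refine ⟨m, fun y hy hyE => hx ?_⟩
    have hyE' : y ∈ E m := hyE
    rw [hEm] at hyE'
    show x ∈ E m
    rw [hEm]
    exact fun z hz => hyE' z fun i hi => by rw [hz i hi, hy i hi]
  have hEU : (E m : Set (ℕ → ℕ)) ⊆ U := fun x hx => hx x fun _ _ => rfl
  -- bounding one more coordinate
  set B : ℕ → ℕ → Opens (ℕ → ℕ) := fun n c =>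
    ⟨{x | x n ≤ c}, by
      have hc : Continuous fun y : ℕ → ℕ => y n := continuous_apply n
      exact (isOpen_discrete (Set.Iic c)).preimage hc⟩ with hB
  have step : ∀ (V : {V : Opens (ℕ → ℕ) // V ∈ W}) (n : ℕ), ∃ c, V.1 ⊓ B n c ∈ W := by
    rintro ⟨V, hV⟩ n
    apply exists_mem_of_union W hW V hV
    · intro a b hab x hx
      exact ⟨hx.1, show x n ≤ b from le_trans (show x n ≤ a from hx.2) hab⟩
    · intro x hx
      exact ⟨x n, hx, show x n ≤ x n from le_refl _⟩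
  choose c hc using step
  let V : ℕ → {V : Opens (ℕ → ℕ) // V ∈ W} := fun n =>
    Nat.rec ⟨E m, hm⟩ (fun n V => ⟨V.1 ⊓ B n (c V n), hc V n⟩) n
  have hV0 : (V 0).1 = E m := rfl
  have hVs : ∀ n, (V (n + 1)).1 = (V n).1 ⊓ B n (c (V n) n) := fun _ => rfl
  set f : ℕ → ℕ := fun n => c (V n) n with hf
  have hVmem : ∀ n x, x ∈ (V n).1 ↔ x ∈ E m ∧ ∀ i < n, x i ≤ f i := by
    intro n
    induction n with
    | zero => intro x; rw [hV0]; simp
    | succ n ih =>
      intro x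
      rw [hVs]
      have h1 : x ∈ (V n).1 ⊓ B n (c (V n) n) ↔ x ∈ (V n).1 ∧ x n ≤ f n := Iff.rfl
      rw [h1, ih]
      constructor
      · rintro ⟨⟨h1, h2⟩, h3⟩
        refine ⟨h1, fun i hi => ?_⟩
        rcases Nat.lt_succ_iff_lt_or_eq.1 hi with h | h
        · exact h2 i h
        · rw [h]; exact h3
      · rintro ⟨h1, h2⟩
        exact ⟨⟨h1, fun i hi => h2 i (Nat.lt_succ_of_lt hi)⟩, h2 n (Nat.lt_succ_self n)⟩
  have hcomp : ∀ g : ℕ → ℕ, IsCompact {x : ℕ → ℕ | ∀ i, x i ≤ g i} := by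
    intro g
    have : {x : ℕ → ℕ | ∀ i, x i ≤ g i} = Set.pi Set.univ fun i => Set.Iic (g i) := by
      ext x; simp only [Set.mem_ofPred_eq, Set.mem_univ_pi, Set.mem_Iic]
    rw [this]
    exact isCompact_univ_pi fun i => (Set.finite_Iic (g i)).isCompact
  refine ⟨⟨(E m : Set (ℕ → ℕ)) ∩ {x | ∀ i, x i ≤ f i}, (hcomp f).inter_left hEcl⟩,
    fun x hx => hEU hx.1, ?_⟩
  intro O hO
  by_contra hOW
  have hex : ∀ n, ∃ x, x ∈ (V n).1 ∧ x ∉ O := by
    intro n
    by_contra hcon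
    push Not at hcon
    exact hOW (hW.1 (show (V n).1 ≤ O from hcon) (V n).2)
  choose x hx1 hx2 using hex
  set g : ℕ → ℕ := fun i => max (f i) ((Finset.range (i + 1)).sup fun n => x n i) with hg
  have hxg : ∀ n, x n ∈ {x : ℕ → ℕ | ∀ i, x i ≤ g i} := by
    intro n i
    by_cases hni : n ≤ i
    · refine le_trans ?_ (le_max_right _ _)
      exact Finset.le_sup (f := fun n => x n i) (Finset.mem_range.2 (Nat.lt_succ_of_le hni))
    · refine le_trans ?_ (le_max_left _ _)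
      exact ((hVmem n (x n)).1 (hx1 n)).2 i (not_le.1 hni)
  obtain ⟨y, _, φ, hφ, hy⟩ := (hcomp g).tendsto_subseq hxg
  have hyE : y ∈ (E m : Set (ℕ → ℕ)) := by
    refine hEcl.mem_of_tendsto hy (Eventually.of_forall fun n => ?_)
    exact ((hVmem _ _).1 (hx1 (φ n))).1
  have hyf : ∀ i, y i ≤ f i := by
    intro i
    have h1 : Tendsto (fun n => x (φ n) i) atTop (𝓝 (y i)) := (tendsto_pi_nhds.1 hy) i
    refine le_of_tendsto h1 ?_
    filter_upwards [eventually_gt_atTop i] with n hn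
    exact ((hVmem _ _).1 (hx1 (φ n))).2 i (lt_of_lt_of_le hn (hφ.id_le n))
  have hyO : y ∈ O := hO ⟨hyE, hyf⟩
  have hev := hy.eventually (O.isOpen.mem_nhds hyO)
  obtain ⟨n, hn⟩ := hev.exists
  exact hx2 _ hn

theorem interior_baire (K : Set (ℕ → ℕ)) (hK : IsCompact K) : interior K = ∅ := by
  by_contra hne
  obtain ⟨x, hx⟩ := Set.nonempty_iff_ne_empty.2 hne
  obtain ⟨n, hn⟩ := exists_cyl _ isOpen_interior x hx
  have hc : IsCompact ((fun y : ℕ → ℕ => y n) '' K) := hK.image (continuous_apply n)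
  have hfin : ((fun y : ℕ → ℕ => y n) '' K).Finite := hc.finite_of_discrete
  have huniv : ((fun y : ℕ → ℕ => y n) '' K) = Set.univ := by
    apply Set.eq_univ_of_forall
    intro a
    refine ⟨Function.update x n a, interior_subset (hn _ fun i hi => ?_), by simp⟩
    rw [Function.update_of_ne hi.ne]
  rw [huniv] at hfin
  exact Set.infinite_univ hfin

/-- The poset of Scott open families of open subsets of Baire space. -/
theorem main :
    ScottSober (Opens (ℕ → ℕ)) ∧ ScottSober (SO (Opens (ℕ → ℕ))) ∧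
      ¬ ScottSober (SO (Opens (ℕ → ℕ)) × Opens (ℕ → ℕ)) := by
  let _ : MetricSpace (ℕ → ℕ) := TopologicalSpace.metrizableSpaceMetric (ℕ → ℕ)
  refine ⟨opens_sober consonant_baire, SO_sober consonant_baire,
    product_not_sober consonant_baire interior_baire⟩

end Pool.Agent.Y461.SOB
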